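import Pool.Agent.MP_3ce0a0_al.H79.XS

/-
Functionals fixed by most Steinberg involutions are fixed by all of them.
-/

namespace Pool.Agent.MP_3ce0a0_al.H79.X

open Module Finset

namespace Lam

variable {H ι : Type} [AddCommGroup H] [Module ℂ H] {s : ι → ι → End ℂ H} {Y : Submodule ℂ H}

theorem exists_out [Fintype ι] [DecidableEq ι] (l : List ι) (h : l.length < Fintype.card ι) :
    ∃ x, x ∉ l := by
  by_contra hc
  push Not at hc
  have : (univ : Finset ι) ⊆ l.toFinset := fun x _ => List.mem_toFinset.2 (hc x)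
  have h2 := (card_le_card this).trans (List.toFinset_card_le l)
  rw [card_univ] at h2
  omega

/-- the product over a list. -/
noncomputable def pr (s : ι → ι → End ℂ H) (a : ι) (l : List ι) : End ℂ H :=
  (l.map fun b => s b a).prod

theorem pr_nil (a : ι) (v : H) : pr s a [] v = v := rfl

theorem pr_cons (a b : ι) (l : List ι) (v : H) : pr s a (b :: l) v = s b a (pr s a l v) := by
  simp [pr]

theorem pr_comm (a : ι) (X : End ℂ H) (l : List ι) (h : ∀ b ∈ l, ∀ v, s b a (X v) = X (s b a v))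
    (v : H) : pr s a l (X v) = X (pr s a l v) := by
  induction l with
  | nil => rfl
  | cons b l ih =>
    rw [pr_cons, pr_cons, ih fun c hc => h c (List.mem_cons_of_mem _ hc),
      h b List.mem_cons_self]

theorem pr_mem (hK : ∀ a b, a ≠ b → Keeps (s a b) Y) (a : ι) (l : List ι) (h : ∀ b ∈ l, b ≠ a)
    {v : H} (hv : v ∈ Y) : pr s a l v ∈ Y := by
  induction l with
  | nil => exact hv
  | cons b l ih =>
    rw [pr_cons]
    exact hK b a (h b List.mem_cons_self) _ (ih fun c hc => h c (List.mem_cons_of_mem _ hc))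

variable [DecidableEq ι]

theorem sq (h : St s) {a b : ι} (hab : a ≠ b) (v : H) : s a b (s a b v) = v :=
  LinearMap.congr_fun (h.1 a b hab) v

theorem cm (h : St s) {a b c d : ι} (h1 : a ≠ b) (h2 : c ≠ d) (h3 : b ≠ c) (h4 : a ≠ d) (v : H) :
    s a b (s c d v) = s c d (s a b v) := LinearMap.congr_fun (h.2.1 a b c d h1 h2 h3 h4).eq v

theorem st (h : St s) {a b c : ι} (h1 : a ≠ b) (h2 : b ≠ c) (h3 : a ≠ c) (v : H) :
    s a b (s b c (s a b v)) = s b c (s a c v) := LinearMap.congr_fun (h.2.2 a b c h1 h2 h3) v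

theorem pr_surj (h : St s) (hK : ∀ a b, a ≠ b → Keeps (s a b) Y) (a : ι) (l : List ι)
    (hl : ∀ b ∈ l, b ≠ a) : ∀ w ∈ Y, ∃ v ∈ Y, pr s a l v = w := by
  induction l with
  | nil => exact fun w hw => ⟨w, hw, rfl⟩
  | cons b l ih =>
    intro w hw
    have hb := hl b List.mem_cons_self
    obtain ⟨v, hv, e⟩ := ih (fun c hc => hl c (List.mem_cons_of_mem _ hc)) _ (hK b a hb w hw)
    exact ⟨v, hv, by rw [pr_cons, e, sq h hb]⟩

theorem pr_tw (h : St s) {a c d : ι} (hcd : c ≠ d) (hca : c ≠ a) (hda : d ≠ a) (l : List ι)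
    (hl : ∀ b ∈ l, b ≠ a) (hn : l.Nodup) (hd : d ∈ l) (v : H) :
    pr s a l (s c d v) = s c d (s c a (pr s a l v)) := by
  induction l with
  | nil => simp at hd
  | cons b l ih =>
    have hb := hl b List.mem_cons_self
    have hl' : ∀ x ∈ l, x ≠ a := fun x hx => hl x (List.mem_cons_of_mem _ hx)
    rw [List.nodup_cons] at hn
    rw [pr_cons, pr_cons]
    by_cases e : b = d
    · subst e
      rw [pr_comm a (s c b) l fun x hx w => cm h (hl' x hx) hcd hca.symm
        (fun e => hn.1 (e ▸ hx)) w]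
      have h1 := st h hcd hda hca (s c b (pr s a l v))
      rw [sq h hcd] at h1
      rw [cm h hca hda hda.symm hca, ← cm h hca hda hda.symm hca]
      have h2 := st h hcd hda hca (pr s a l v)
      have h3 := congrArg (s c b) h2
      rw [sq h hcd] at h3
      rw [h3, cm h hda hca hca.symm hda]
    · rw [ih hl' hn.2 ((List.mem_cons.1 hd).resolve_left (Ne.symm e)),
        cm h hb hcd hca.symm e, cm h hb hca hca.symm hb]

theorem pr_fix (h : St s) (hK : ∀ a b, a ≠ b → Keeps (s a b) Y) (f : H →ₗ[ℂ] ℂ) {a g : ι}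
    (hf : ∀ b, b ≠ a → b ≠ g → ∀ v ∈ Y, f (s b g v) = f v) (l : List ι) (hl : ∀ b ∈ l, b ≠ g)
    (ha : a ∉ l) : ∀ v ∈ Y, f (pr s g l v) = f v := by
  induction l with
  | nil => exact fun v _ => rfl
  | cons b l ih =>
    intro v hv
    have hl' : ∀ x ∈ l, x ≠ g := fun x hx => hl x (List.mem_cons_of_mem _ hx)
    rw [List.mem_cons, not_or] at ha
    rw [pr_cons, hf b (Ne.symm ha.1) (hl b List.mem_cons_self) _ (pr_mem hK g l hl' hv),
      ih hl' ha.2 v hv]

theorem pr_fix' (h : St s) (hK : ∀ a b, a ≠ b → Keeps (s a b) Y) (f : H →ₗ[ℂ] ℂ) {a g : ι}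
    (hag : a ≠ g) (hf : ∀ b, b ≠ a → b ≠ g → ∀ v ∈ Y, f (s b g v) = f v) (l : List ι)
    (hl : ∀ b ∈ l, b ≠ g) (hn : l.Nodup) (ha : a ∈ l) :
    ∀ v ∈ Y, f (pr s g l v) = f (s a g v) := by
  induction l with
  | nil => simp at ha
  | cons b l ih =>
    intro v hv
    have hl' : ∀ x ∈ l, x ≠ g := fun x hx => hl x (List.mem_cons_of_mem _ hx)
    rw [List.nodup_cons] at hn
    rw [pr_cons]
    by_cases e : b = a
    · subst e
      rw [← pr_comm g (s b g) l fun x hx w => cm h (hl' x hx) hag hag.symm (hl' x hx) w]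
      exact pr_fix h hK f hf l hl' hn.1 _ (hK b g hag v hv)
    · rw [hf b e (hl b List.mem_cons_self) _ (pr_mem hK g l hl' hv)]
      exact ih hl' hn.2 ((List.mem_cons.1 ha).resolve_left (Ne.symm e)) v hv

omit [DecidableEq ι] in
theorem kill2 {E : Type} (δ : E → H →ₗ[ℂ] ℂ) (X X' T : End ℂ H) (hX : Keeps X Y)
    (hX' : Keeps X' Y) (hc : ∀ v, X (X' v) = X' (X v))
    (hor : ∀ e, (∀ v ∈ Y, δ e (X v) = δ e v) ∨ ∀ v ∈ Y, δ e (X' v) = δ e v)
    (hT : ∀ v ∈ Y, (∀ e, δ e v = 0) → ∀ e, δ e (T v) = 0) (e : E) {v : H} (hv : v ∈ Y) :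
    δ e (T v) - δ e (T (X' v)) - δ e (T (X v)) + δ e (T (X (X' v))) = 0 := by
  have := hT (v - X' v - X v + X (X' v))
    (add_mem (sub_mem (sub_mem hv (hX' v hv)) (hX v hv)) (hX _ (hX' v hv))) (fun e' => by
      simp only [map_add, map_sub]
      rcases hor e' with k | k
      · rw [k v hv, k _ (hX' v hv)]; ring
      · rw [hc, k v hv, k _ (hX v hv)]; ring) e
  simpa only [map_add, map_sub] using this

end Lam

open Lam in
theorem slam : SLam := by
  intro H _ _ _ ι E _ _ _ s Y δ h5 h hK hfix hsig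
  choose a₀ ha₀ using hfix
  have hl : ∀ a : ι, ∀ b ∈ (univ.erase a).toList, b ≠ a := fun a b hb =>
    (mem_erase.1 (mem_toList.1 hb)).1
  have hm : ∀ a b : ι, b ≠ a → b ∈ (univ.erase a).toList := fun a b hb =>
    mem_toList.2 (mem_erase.2 ⟨hb, mem_univ _⟩)
  have hs : ∀ a, sig s a = pr s a (univ.erase a).toList := fun a => rfl
  have two : ∀ e c x, c ≠ x → c ≠ a₀ e → x ≠ a₀ e → ∀ w ∈ Y, δ e w - δ e (s x (a₀ e) w) -
      δ e (s c (a₀ e) w) + δ e (s c (a₀ e) (s x (a₀ e) w)) = 0 := by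
    intro e c x hcx hca hxa w hw
    obtain ⟨d, hd⟩ := exists_out [a₀ e, c, x] (by simp only [List.length_cons, List.length_nil]; omega)
    obtain ⟨g, hg⟩ := exists_out [a₀ e, c, x, d]
      (by simp only [List.length_cons, List.length_nil]; omega)
    simp only [List.mem_cons, List.not_mem_nil, or_false, not_or] at hd hg
    obtain ⟨hda, hdc, hdx⟩ := hd
    obtain ⟨hga, hgc, hgx, hgd⟩ := hg
    obtain ⟨v, hv, rfl⟩ := pr_surj h hK (a₀ e) _ (hl (a₀ e)) w hw
    have k := kill2 δ (s c d) (s x g) (sig s (a₀ e)) (hK c d (Ne.symm hdc)) (hK x g (Ne.symm hgx))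
      (cm h (Ne.symm hdc) (Ne.symm hgx) hdx (Ne.symm hgc)) (fun e' => by
        by_cases k : c ≠ a₀ e' ∧ d ≠ a₀ e'
        · exact Or.inl (ha₀ e' c d (Ne.symm hdc) k.1 k.2)
        · refine Or.inr (ha₀ e' x g (Ne.symm hgx) ?_ ?_)
          · rintro rfl
            exact k ⟨hcx, hdx⟩
          · rintro rfl
            exact k ⟨Ne.symm hgc, Ne.symm hgd⟩) (hsig (a₀ e)) e hv
    have t1 := pr_tw h (Ne.symm hdc) hca hda _ (hl _) (nodup_toList _) (hm _ _ hda)
    have t2 := pr_tw h (Ne.symm hgx) hxa hga _ (hl _) (nodup_toList _) (hm _ _ hga)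
    rw [hs, t1, t1, t2] at k
    set u := pr s (a₀ e) (univ.erase (a₀ e)).toList v
    have m1 := hK x _ hxa u hw
    rw [ha₀ e x g (Ne.symm hgx) hxa hga _ m1, ha₀ e c d (Ne.symm hdc) hca hda _ (hK c _ hca u hw),
      ha₀ e c d (Ne.symm hdc) hca hda _ (hK c _ hca _ (hK x g (Ne.symm hgx) _ m1)),
      cm h hca (Ne.symm hgx) (Ne.symm hxa) (Ne.symm hgc),
      ha₀ e x g (Ne.symm hgx) hxa hga _ (hK c _ hca _ m1)] at k
    exact k
  have one : ∀ e c d, c ≠ d → c ≠ a₀ e → ∀ w ∈ Y, δ e (s c d w) = δ e w := by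
    intro e c d hcd hca w hw
    by_cases hda : d = a₀ e
    swap
    · exact ha₀ e c d hcd hca hda w hw
    subst hda
    obtain ⟨x, hx⟩ := exists_out [a₀ e, c] (by simp only [List.length_cons, List.length_nil]; omega)
    simp only [List.mem_cons, List.not_mem_nil, or_false, not_or] at hx
    obtain ⟨hxa, hxc⟩ := hx
    have hcx : c ≠ x := Ne.symm hxc
    have k1 := two e c x hcx hca hxa _ (hK c x hcx w hw)
    have k2 := two e c x hcx hca hxa _ (hK c _ hca w hw)
    have e1 : s x (a₀ e) (s c x w) = s c x (s x (a₀ e) (s c (a₀ e) w)) := by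
      rw [← st h hcx hxa hca, sq h hcx]
    have m1 := hK c _ hca w hw
    have m2 := hK x _ hxa _ m1
    rw [e1, cm h hca hcx hca.symm hcx w, cm h hca hcx hca.symm hcx, ha₀ e c x hcx hca hxa w hw,
      ha₀ e c x hcx hca hxa _ m2, ha₀ e c x hcx hca hxa _ m1,
      ha₀ e c x hcx hca hxa _ (hK c _ hca _ m2)] at k1
    rw [sq h hca] at k2
    linear_combination (k2 - k1) / 2
  intro e a b hab v hv
  by_cases ha : a = a₀ e
  swap
  · exact one e a b hab ha v hv
  obtain ⟨g, hg⟩ := exists_out [a, b] (by simp only [List.length_cons, List.length_nil]; omega)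
  simp only [List.mem_cons, List.not_mem_nil, or_false, not_or] at hg
  obtain ⟨hga, hgb⟩ := hg
  have hag : a ≠ g := Ne.symm hga
  have m0 := hK a g hag v hv
  have k := kill2 δ (s a b) (s g b) (sig s g) (hK a b hab) (hK g b hgb)
    (cm h hab hgb (Ne.symm hgb) hab) (fun e' => by
      by_cases k : a = a₀ e'
      · exact Or.inr (one e' g b hgb (k ▸ hga))
      · exact Or.inl (one e' a b hab k)) (hsig g) e m0
  have p := pr_fix' h hK (δ e) hag (fun c hc hcg => one e c g hcg (ha ▸ hc)) _ (hl g)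
    (nodup_toList _) (hm _ _ hag)
  have f1 := one e g b hgb (ha ▸ hga)
  have m1 := hK a b hab v hv
  rw [hs, p _ m0, p _ (hK g b hgb _ m0), p _ (hK a b hab _ m0),
    p _ (hK a b hab _ (hK g b hgb _ m0)), sq h hag, st h hag hgb hab,
    cm h hag hab hga hab (s a g v), sq h hag, cm h hag hab hga hab, st h hag hgb hab, f1 _ m1,
    cm h hab hgb (Ne.symm hgb) hab, sq h hab, f1 v hv] at k
  linear_combination (-k) / 2

end Pool.Agent.MP_3ce0a0_al.H79.X
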